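import Mathlib

/-!
# The scalar certificate

`Fz κ α z s` is a submartingale when `z` makes a fair step `± w` and `s` increases by `w ^ 2`; it is
nonpositive when `z` is not large and `s` is bounded below.
-/

namespace RC

/-- `κ + α z - N₄(z, s)` where `N₄ = z⁴ - 6 s z² + 3 s²`. -/
noncomputable def Fz (κ α z s : ℝ) : ℝ := κ + α * z + 6 * s ^ 2 - (z ^ 2 - 3 * s) ^ 2

theorem Fz_step (κ α z s w : ℝ) :
    (Fz κ α (z + w) (s + w ^ 2) + Fz κ α (z - w) (s + w ^ 2)) / 2 = Fz κ α z s + 2 * w ^ 4 := by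
  unfold Fz; ring

theorem Fz_zero (κ α : ℝ) : Fz κ α 0 0 = κ := by
  unfold Fz; ring

/-- upper bound on the whole range -/
theorem Fz_le (κ z s : ℝ) (hκ : κ ≤ 1) (hs0 : 0 ≤ s) (hs : s ≤ 11 / 10) : Fz κ 12 z s ≤ 64 := by
  unfold Fz
  by_cases hz : z ≤ 4
  · by_cases hz' : z ≤ 0
    · nlinarith [sq_nonneg (z ^ 2 - 3 * s)]
    · have hz' : 0 < z := not_le.mp hz'
      nlinarith [sq_nonneg (z ^ 2 - 3 * s)]
  · have hz : 4 < z := not_le.mp hz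
    have h1 : 16 < z ^ 2 := by nlinarith
    have h2 : z ^ 2 - 3 * s ≥ z ^ 2 / 2 := by linarith
    have h3 : (z ^ 2 - 3 * s) ^ 2 ≥ (z ^ 2 / 2) ^ 2 := by
      apply pow_le_pow_left₀ (by positivity) h2
    have h4 : (z ^ 2 / 2) ^ 2 ≥ 16 * z := by nlinarith
    nlinarith

/-- the certificate is nonpositive when `z` is at most `lam` and `s` is between `s0` and `1.1` -/
theorem Fz_nonpos (κ lam s0 z s : ℝ) (hκ0 : 0 ≤ κ) (hs0 : 0 < s0) (hs : s0 ≤ s)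
    (hs1 : s ≤ 11 / 10) (hlam : 0 ≤ lam) (hlam1 : lam ^ 2 ≤ s0)
    (hκ : κ ≤ s0 ^ 2 / 4) (hκ1 : κ + 12 * lam + 7 * lam ^ 2 ≤ 3 * s0 ^ 2)
    (hz : z ≤ lam) : Fz κ 12 z s ≤ 0 := by
  have hsp : 0 < s := lt_of_lt_of_le hs0 hs
  have hss : s0 ^ 2 ≤ s ^ 2 := pow_le_pow_left₀ hs0.le hs 2
  have h5 : (z ^ 2 - 3 * s) ^ 2 = (3 * s - z ^ 2) ^ 2 := by ring
  unfold Fz
  rw [h5]
  rcases le_total 0 z with h0 | h0
  · -- 0 ≤ z ≤ lam
    have h1 : z ^ 2 ≤ lam ^ 2 := pow_le_pow_left₀ h0 hz 2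
    have h2 : (3 * s - z ^ 2) ≥ 3 * s - lam ^ 2 := by linarith
    have h3 : 0 ≤ 3 * s - lam ^ 2 := by nlinarith
    have h4 : (3 * s - z ^ 2) ^ 2 ≥ (3 * s - lam ^ 2) ^ 2 := pow_le_pow_left₀ h3 h2 2
    have h6 : 6 * s * lam ^ 2 ≤ 7 * lam ^ 2 := by nlinarith [sq_nonneg lam]
    nlinarith [sq_nonneg (lam ^ 2)]
  · -- z ≤ 0
    by_cases hc : z ^ 2 ≤ s / 2
    · have h2 : 3 * s - z ^ 2 ≥ 5 / 2 * s := by linarith
      have h4 : (3 * s - z ^ 2) ^ 2 ≥ (5 / 2 * s) ^ 2 := pow_le_pow_left₀ (by positivity) h2 2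
      nlinarith
    · -- `-12 z ≥ 6 s^2 + κ`
      have hc' : s / 2 < z ^ 2 := not_le.mp hc
      have hk : 6 * s ^ 2 + κ ≤ 25 / 4 * s ^ 2 := by linarith
      have h8 : s ^ 3 ≤ (11 / 10) ^ 3 := pow_le_pow_left₀ hsp.le hs1 3
      have h7 : (25 / 4 * s ^ 2) ^ 2 ≤ (12 * (-z)) ^ 2 := by
        have h9 : (25 / 4 * s ^ 2) ^ 2 = (625 / 16) * s ^ 3 * s := by ring
        have h10 : (625 / 16) * s ^ 3 * s ≤ (625 / 16) * (11 / 10) ^ 3 * s := by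
          apply mul_le_mul_of_nonneg_right _ hsp.le
          linarith
        rw [h9]
        nlinarith
      have h11 : 25 / 4 * s ^ 2 ≤ 12 * (-z) :=
        le_of_sq_le_sq h7 (by linarith)
      nlinarith [sq_nonneg (3 * s - z ^ 2)]

end RC
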