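import Mathlib

/-!
# Sub-protocols and certificates

A sub-protocol is played by `n` processes, each of which owns one register (of the sub-protocol).
A history is a list of pairs (process, coin); the coin is used only if the process is about to flip.
Probabilities are not mentioned: a *certificate* is a submartingale on the tree of histories.
-/

namespace RC

/-- next action in a sub-protocol: read the register of `j`, write the own register, flip, or stop
with output `o` -/
inductive SAct (n : ℕ) (V S O : Type) : Type
  | read (j : Fin n) (next : V → S)
  | write (v : V) (next : S)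
  | flip (next : Bool → S)
  | out (o : O)

structure Sub (n : ℕ) (O : Type) where
  V : Type
  v0 : V
  S : Type
  s0 : S
  act : Fin n → S → SAct n V S O

variable {n : ℕ} {O : Type}

structure SCfg (P : Sub n O) where
  st : Fin n → P.S
  mem : Fin n → P.V

namespace Sub

variable (P : Sub n O)

def init : SCfg P := ⟨fun _ => P.s0, fun _ => P.v0⟩

/-- one step of process `i` with coin `b` -/
def step (c : SCfg P) (i : Fin n) (b : Bool) : SCfg P :=
  match P.act i (c.st i) with
  | .read j next => { c with st := Function.update c.st i (next (c.mem j)) }
  | .write v next => { st := Function.update c.st i next, mem := Function.update c.mem i v }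
  | .flip next => { c with st := Function.update c.st i (next b) }
  | .out _ => c

/-- the configuration after a history -/
def cfg (h : List (Fin n × Bool)) : SCfg P := h.foldl (fun c e => P.step c e.1 e.2) P.init

@[simp] theorem cfg_nil : P.cfg [] = P.init := rfl

theorem cfg_snoc (h : List (Fin n × Bool)) (e : Fin n × Bool) :
    P.cfg (h ++ [e]) = P.step (P.cfg h) e.1 e.2 := by
  simp [cfg, List.foldl_append]

/-- process `i` has stopped with output `o` -/
def Outs (h : List (Fin n × Bool)) (i : Fin n) (o : O) : Prop :=
  P.act i ((P.cfg h).st i) = .out o

def IsFlip (c : SCfg P) (i : Fin n) : Prop := ∃ next, P.act i (c.st i) = .flip next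

/-- Every process makes at most `T` steps: there is a rank function on local states. (`ok` is an
invariant of local states, for convenience.) -/
def Ranked (T : ℕ) : Prop :=
  ∃ (ok : Fin n → P.S → Prop) (rank : Fin n → P.S → ℕ),
    (∀ i, ok i P.s0) ∧ (∀ i, rank i P.s0 ≤ T) ∧
    (∀ i s j next v, ok i s → P.act i s = .read j next → ok i (next v) ∧ rank i (next v) < rank i s) ∧
    (∀ i s v next, ok i s → P.act i s = .write v next → ok i next ∧ rank i next < rank i s) ∧
    (∀ i s next b, ok i s → P.act i s = .flip next → ok i (next b) ∧ rank i (next b) < rank i s)

/-- A certificate that, against every strong adversary, `good` holds forever with probability at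
least `δ`: a nonnegative submartingale bounded by one which is positive only on good histories. -/
structure IsCert (f : List (Fin n × Bool) → ℝ) (δ : ℝ) (good : List (Fin n × Bool) → Prop) :
    Prop where
  nonneg : ∀ h, 0 ≤ f h
  le_one : ∀ h, f h ≤ 1
  init : δ ≤ f []
  flip : ∀ h i, P.IsFlip (P.cfg h) i → f h ≤ (f (h ++ [(i, false)]) + f (h ++ [(i, true)])) / 2
  det : ∀ h i b, ¬ P.IsFlip (P.cfg h) i → f h ≤ f (h ++ [(i, b)])
  good : ∀ h, 0 < f h → good h

end Sub

/-- the processes that have made at least one step -/
def parts (h : List (Fin n × Bool)) : Finset (Fin n) := (h.map Prod.fst).toFinset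

/-- Interface of the first stage of the coin: outputs `some b` (a value of the coin) or `none`
(the process passes to the second stage). At most `K` processes pass. -/
structure Stage1 (n T K : ℕ) (δ : ℝ) where
  P : Sub n (Option Bool)
  ranked : P.Ranked T
  pass : ∀ h : List (Fin n × Bool), ∀ A : Finset (Fin n), (∀ i ∈ A, P.Outs h i none) → A.card ≤ K
  cert : ∀ v : Bool, ∃ f, P.IsCert f δ (fun h => ∀ i b, P.Outs h i (some b) → b = v)

/-- Interface of the second stage of the coin; it works as long as at most `K` processes take
part. -/
structure Stage2 (n T K : ℕ) (δ : ℝ) where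
  P : Sub n Bool
  ranked : P.Ranked T
  cert : ∀ v : Bool, ∃ f, P.IsCert f δ
    (fun h => (parts h).card ≤ K → ∀ i b, P.Outs h i b → b = v)

end RC
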