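import Pool.Agent.H79.RC.Assemble
import Pool.Agent.H66.RC.Stage1
import Pool.Agent.H88.RC.S2.Cert
import Pool.Agent.H27.RC.Inv2
import Pool.Agent.H45.RC.Pot

/-!
# All parts together
-/

namespace RC

theorem consStatement : ConsStatement := fun _ _ _ _ _ _ hδ1 hδ2 A B =>
  Cons.exists_potential_of (fun _ _ _ _ hg i coin => Cons.inv_gstep hg i coin)
    (fun _ _ inp h => Cons.inv_ghost inp h) hδ1 hδ2 A B

end RC
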