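import Mathlib

/-!
# Asynchronous shared memory with single-writer registers, randomized consensus

The model of the problem file: `n` asynchronous processes, atomic read/write registers each of
which has one fixed writer and may be read by everybody, local fair coins, and a strong (adaptive)
adversary who chooses at every moment which process moves, as a function of the whole history.
-/

namespace RC

open MeasureTheory Set

open scoped ENNReal

/-- The next action of process `i` (a function of its local state): read a register, write a
register that it owns, flip a fair coin, or decide (and stop). -/
inductive Act {n : ℕ} (Reg : Type) (owner : Reg → Fin n) (Val St : Type) (i : Fin n) : Type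
  | read (r : Reg) (next : Val → St)
  | write (r : Reg) (own : owner r = i) (v : Val) (next : St)
  | flip (next : Bool → St)
  | decide (b : Bool)

/-- A protocol for `n` processes with single-writer multiple-reader registers. -/
structure Protocol (n : ℕ) where
  /-- the registers -/
  Reg : Type
  /-- the only process that may write the register -/
  owner : Reg → Fin n
  /-- contents of registers -/
  Val : Type
  /-- initial contents -/
  init : Reg → Val
  /-- local states -/
  St : Type
  /-- initial local state of a process with a given input -/
  start : Fin n → Bool → St
  /-- the next action -/
  act : (i : Fin n) → St → Act Reg owner Val St i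

variable {n : ℕ}

/-- A configuration: all local states and all register contents. -/
structure Config (P : Protocol n) where
  st : Fin n → P.St
  mem : P.Reg → P.Val

namespace Protocol

variable (P : Protocol n)

/-- The initial configuration for an input assignment. -/
def initCfg (inp : Fin n → Bool) : Config P := ⟨fun i => P.start i (inp i), P.init⟩

/-- Process `i` is about to flip a coin. -/
def IsFlip (c : Config P) (i : Fin n) : Prop := ∃ next, P.act i (c.st i) = .flip next

/-- Process `i` has decided `b`. -/
def Decides (c : Config P) (i : Fin n) (b : Bool) : Prop := P.act i (c.st i) = .decide b

/-- Process `i` is about to perform a register operation. -/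
def IsOp (c : Config P) (i : Fin n) : Prop :=
  (∃ r next, P.act i (c.st i) = .read r next) ∨ (∃ r own v next, P.act i (c.st i) = .write r own v next)

open Classical in
/-- One step of process `i`; `b` is the outcome of the coin, used only if `i` is about to flip. A
process that has decided does not move any more. -/
noncomputable def step (c : Config P) (i : Fin n) (b : Bool) : Config P :=
  match P.act i (c.st i) with
  | .read r next => { c with st := Function.update c.st i (next (c.mem r)) }
  | .write r _ v next =>
      { st := Function.update c.st i next, mem := Function.update c.mem r v }
  | .flip next => { c with st := Function.update c.st i (next b) }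
  | .decide _ => c

end Protocol

/-- An event: which process moved, and the outcome of its coin if it flipped one. -/
abbrev Event (n : ℕ) := Fin n × Option Bool

/-- A strong adversary: it chooses who moves next as a function of the whole history (from which
all local states and all register contents can be computed, since everything except the coins is
deterministic). -/
abbrev Adversary (n : ℕ) := List (Event n) → Fin n

/-- The space of all local coins: the `k`-th coin of process `i` is `ω (i, k)`. -/
abbrev Coins (n : ℕ) := Fin n × ℕ → Bool

/-- All local coins are independent and fair. -/
noncomputable def coinMeasure (n : ℕ) : Measure (Coins n) :=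
  Measure.infinitePi fun _ => (PMF.uniformOfFintype Bool).toMeasure

/-- An execution up to some moment. -/
structure Exec (P : Protocol n) where
  cfg : Config P
  hist : List (Event n)
  /-- how many coins each process has flipped -/
  used : Fin n → ℕ

open Classical in
/-- The execution of `P` on the inputs `inp` against the adversary `σ`, when the local coins
are `ω`. -/
noncomputable def run (P : Protocol n) (inp : Fin n → Bool) (σ : Adversary n) (ω : Coins n) :
    ℕ → Exec P
  | 0 => ⟨P.initCfg inp, [], fun _ => 0⟩
  | t + 1 =>
      let e := run P inp σ ω t
      let i := σ e.hist
      let b := ω (i, e.used i)
      if P.IsFlip e.cfg i then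
        ⟨P.step e.cfg i b, e.hist ++ [(i, some b)], Function.update e.used i (e.used i + 1)⟩
      else
        ⟨P.step e.cfg i b, e.hist ++ [(i, none)], e.used⟩

/-- The process that moves at time `t`. -/
noncomputable def mover (P : Protocol n) (inp : Fin n → Bool) (σ : Adversary n) (ω : Coins n)
    (t : ℕ) : Fin n := σ (run P inp σ ω t).hist

open Classical in
/-- The number of register operations (reads and writes) of process `i` in the whole execution. -/
noncomputable def ops (P : Protocol n) (inp : Fin n → Bool) (σ : Adversary n) (i : Fin n)
    (ω : Coins n) : ℝ≥0∞ :=
  ∑' t, if mover P inp σ ω t = i ∧ P.IsOp (run P inp σ ω t).cfg i then 1 else 0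

/-- `P` solves randomized binary consensus in the wait-free setting. -/
structure IsConsensus (P : Protocol n) : Prop where
  agreement : ∀ inp σ ω t i j b b', P.Decides (run P inp σ ω t).cfg i b →
    P.Decides (run P inp σ ω t).cfg j b' → b = b'
  validity : ∀ inp σ ω t i b, P.Decides (run P inp σ ω t).cfg i b → ∃ j, inp j = b
  termination : ∀ inp σ i, ∀ᵐ ω ∂(coinMeasure n),
    (∀ T, ∃ t, T ≤ t ∧ mover P inp σ ω t = i) → ∃ t b, P.Decides (run P inp σ ω t).cfg i b

/-- The individual step complexity: the supremum over inputs, strong adversaries and processes of
the expected number of register operations of the process. -/
noncomputable def stepComplexity (P : Protocol n) : ℝ≥0∞ :=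
  ⨆ (inp : Fin n → Bool) (σ : Adversary n) (i : Fin n),
    ∫⁻ ω, ops P inp σ i ω ∂(coinMeasure n)

/-- `S n`: the least individual step complexity of a protocol for `n` processes solving randomized
binary consensus with single-writer multiple-reader registers. -/
noncomputable def S (n : ℕ) : ℝ≥0∞ :=
  ⨅ (P : Protocol n) (_ : IsConsensus P), stepComplexity P

/-! ### configurations as functions of the history -/

/-- The configuration after a history (coins that are not recorded are read as `false`). Every list
of events gives a reachable configuration. -/
noncomputable def Protocol.cfgOf (P : Protocol n) (inp : Fin n → Bool) (h : List (Event n)) :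
    Config P :=
  h.foldl (fun c e => P.step c e.1 (e.2.getD false)) (P.initCfg inp)

@[simp] theorem Protocol.cfgOf_nil (P : Protocol n) (inp : Fin n → Bool) :
    P.cfgOf inp [] = P.initCfg inp := rfl

theorem Protocol.cfgOf_snoc (P : Protocol n) (inp : Fin n → Bool) (h : List (Event n))
    (e : Event n) : P.cfgOf inp (h ++ [e]) = P.step (P.cfgOf inp h) e.1 (e.2.getD false) := by
  simp [Protocol.cfgOf, List.foldl_append]

open Classical in
/-- the number of steps (register operations and coin flips, anything but `decide`) of process `i`
in the history `h` -/
noncomputable def Protocol.work (P : Protocol n) (inp : Fin n → Bool) (h : List (Event n))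
    (i : Fin n) : ℕ :=
  (h.foldl (fun (cm : Config P × ℕ) e => (P.step cm.1 e.1 (e.2.getD false),
    cm.2 + if e.1 = i ∧ ∀ b, ¬ P.Decides cm.1 i b then 1 else 0)) (P.initCfg inp, 0)).2

end RC
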